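import Pool.Agent.T2h19.BI.AllC

/-!
# The Hasse principle for 100% of the Fano cyclic covers of products of projective spaces

Let `F` be a form of multidegree `(m k_1, …, m k_r)` on `P = ℙ^{n_1} × ⋯ × ℙ^{n_r}`, `r ≥ 2`,
`m ≥ 2`, `k_i ≥ 1`, `n_i ≥ 1`, with integral coefficients, and `X_F` the cyclic cover `w ^ m = F` of
`P` of degree `m`. It is smooth if and only if the hypersurface `F = 0` in `P` is smooth, and then
`-K` is the pull-back of `O(n_1 + 1 - (m - 1) k_1, …, n_r + 1 - (m - 1) k_r)`, so that `X_F` is a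
Fano variety if and only if `(m - 1) k_i ≤ n_i` for all `i`. We only suppose that there is one factor
with `n_i ≥ 2` and `(m - 1) k_i ≤ n_i`. Among the Fano cyclic covers this leaves out only the double
covers of `ℙ¹ × ⋯ × ℙ¹`. We show: among the smooth `X_F`, with coefficients of `F` bounded by `H`,
which have points over the real numbers and over all the `p`-adic fields (this is a positive
proportion of all `F`), a proportion tending to `1` as `H → ∞` has a rational point.
-/

set_option autoImplicit false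

namespace Pool.Agent.Results.MP_03ef3d_ag.FanoProductCovers

open Filter Topology

/-- The polynomials in the variables `x_{i, j}`, `0 ≤ j ≤ n i`, `1 ≤ i ≤ r`, with integral
coefficients of absolute value at most `H`, which are homogeneous of degree `d i` in the variables
`x_{i, 0}, …, x_{i, n i}` for all `i`. -/
def Forms {r : ℕ} (n d : Fin r → ℕ) (H : ℕ) :
    Set (MvPolynomial ((i : Fin r) × Fin (n i + 1)) ℤ) :=
  {F | (∀ m ∈ F.support, ∀ i, ∑ j, m ⟨i, j⟩ = d i) ∧ ∀ m, |F.coeff m| ≤ (H : ℤ)}

/-- The value of `F` at the point `x`. -/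
noncomputable def value {r : ℕ} {n : Fin r → ℕ} {K : Type} [Field K]
    (x : (i : Fin r) → Fin (n i + 1) → K) (F : MvPolynomial ((i : Fin r) × Fin (n i + 1)) ℤ) : K :=
  MvPolynomial.aeval (fun q : (i : Fin r) × Fin (n i + 1) => x q.1 q.2) F

/-- The branch locus `F = 0` in the product of the projective spaces is smooth: at every point over
a field of characteristic zero some partial derivative does not vanish. -/
def Smooth {r : ℕ} {n : Fin r → ℕ} (F : MvPolynomial ((i : Fin r) × Fin (n i + 1)) ℤ) : Prop :=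
  ∀ (K : Type) [Field K] [CharZero K] (x : (i : Fin r) → Fin (n i + 1) → K), (∀ i, x i ≠ 0) →
    value x F = 0 → ∃ q, value x (MvPolynomial.pderiv q F) ≠ 0

/-- The cyclic cover `w ^ m = F` of the product of the projective spaces has a point over `K`. -/
def CoverHasPoint {r : ℕ} {n : Fin r → ℕ} (m : ℕ)
    (F : MvPolynomial ((i : Fin r) × Fin (n i + 1)) ℤ) (K : Type) [Field K] : Prop :=
  ∃ (x : (i : Fin r) → Fin (n i + 1) → K) (w : K), (∀ i, x i ≠ 0) ∧ w ^ m = value x F

/-- The cover has points over the real numbers and over all the `p`-adic fields. -/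
def CoverLocallySoluble {r : ℕ} {n : Fin r → ℕ} (m : ℕ)
    (F : MvPolynomial ((i : Fin r) × Fin (n i + 1)) ℤ) : Prop :=
  CoverHasPoint m F ℝ ∧ ∀ (p : ℕ) [Fact p.Prime], CoverHasPoint m F ℚ_[p]

/-- If `n i ≥ 2` and `(m - 1) k i ≤ n i` for at least one `i`, then 100% of the everywhere locally
soluble smooth cyclic covers `w ^ m = F` of `ℙ^{n_1} × ⋯ × ℙ^{n_r}`, `F` of multidegree
`(m k_1, …, m k_r)`, ordered by the height of `F`, have a rational point; the everywhere locally
soluble ones are a positive proportion. -/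
theorem result (r : ℕ) (_hr : 2 ≤ r) (n k : Fin r → ℕ) (m : ℕ) (hm : 2 ≤ m)
    (hn : ∀ i, 1 ≤ n i ∧ 1 ≤ k i) (h : ∃ i, 2 ≤ n i ∧ (m - 1) * k i ≤ n i) :
    (∃ c : ℝ, 0 < c ∧ ∀ᶠ H : ℕ in atTop, c * ((Forms n (fun i => m * k i) H).ncard : ℝ) ≤
      (({F | F ∈ Forms n (fun i => m * k i) H ∧ Smooth F ∧ CoverLocallySoluble m F} :
        Set _).ncard : ℝ)) ∧
    Tendsto (fun H : ℕ =>
      (({F | F ∈ Forms n (fun i => m * k i) H ∧ Smooth F ∧ CoverHasPoint m F ℚ} :
        Set _).ncard : ℝ) /
      (({F | F ∈ Forms n (fun i => m * k i) H ∧ Smooth F ∧ CoverLocallySoluble m F} :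
        Set _).ncard : ℝ))
      atTop (𝓝 1) :=
  Pool.Agent.T2h19.BI.finc r n k m hm (fun i => (hn i).2) h

end Pool.Agent.Results.MP_03ef3d_ag.FanoProductCovers
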