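import Pool.Agent.T2h19.BV.All

/-!
# Random divisors on `ℙⁿ × V`: the Hasse principle relative to the base, for 100%

Let `V ⊂ ℙ^N` be a smooth projective variety over `ℚ` with a rational point such that the closure of
`V(ℚ)` in the space of the adelic points of `V` is open. This is the case if `V` satisfies weak
approximation, and also if the Brauer-Manin obstruction is the only obstruction to weak approximation
on `V` and the Brauer group of `V` modulo constants is finite. Let `n ≥ 3`, `2 ≤ d ≤ n`. For the forms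
`F_0, …, F_N` of degree `d` in `x_0, …, x_n` with integral coefficients let `X_F ⊂ ℙⁿ × V` be the
divisor `v_0 F_0(x) + ⋯ + v_N F_N(x) = 0`, a family of hypersurfaces of degree `d` in `ℙⁿ` over `V`.
By adjunction `X_F`, if smooth, is a Fano variety if `- K_V - O_V(1)` is ample. We show: `X_F` is
smooth for 100% of the `F` (ordered by height), and for 100% of the smooth `X_F` which have an adelic
point whose image in `V` is in the closure of `V(ℚ)` there is a rational point on `X_F`; these are a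
positive proportion of all `F`. In particular, if `V` satisfies weak approximation then 100% of the
`X_F` satisfy the Hasse principle, and if `V` is as in the second case above then the Brauer-Manin
obstruction is the only obstruction to the Hasse principle for 100% of the `X_F`.
-/

set_option autoImplicit false

namespace Pool.Agent.Results.MP_03ef3d_ag.FibrationsOverAnyBase

open Filter Topology

/-- `v` is a point over `K`, in homogeneous coordinates, of the projective variety `V` given by the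
equations `g = 0`, `g ∈ G`. -/
def IsPoint {N : ℕ} {K : Type} [CommRing K] (G : Set (MvPolynomial (Fin (N + 1)) ℤ))
    (v : Fin (N + 1) → K) : Prop :=
  v ≠ 0 ∧ ∀ g ∈ G, MvPolynomial.aeval v g = 0

/-- Finitely many charts which show that the variety `V` given by the homogeneous equations in `G` is
smooth of dimension `m`: on the open set `h α ≠ 0` of `ℙ^N` the variety `V` is given by the `N - m`
equations `f α k = 0`, whose gradients are linearly independent at its points; these open sets cover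
`V`. -/
structure Charts (N m : ℕ) (G : Set (MvPolynomial (Fin (N + 1)) ℤ)) : Type 1 where
  dim_le : m ≤ N
  homog : ∀ g ∈ G, ∃ r, g.IsHomogeneous r
  M : ℕ
  f : Fin M → Fin (N - m) → MvPolynomial (Fin (N + 1)) ℤ
  h : Fin M → MvPolynomial (Fin (N + 1)) ℤ
  homog_f : ∀ α k, ∃ r, (f α k).IsHomogeneous r
  homog_h : ∀ α, ∃ r, (h α).IsHomogeneous r
  equations : ∀ (α : Fin M) (K : Type) [Field K] [CharZero K] (v : Fin (N + 1) → K), v ≠ 0 →
    MvPolynomial.aeval v (h α) ≠ 0 →
    ((∀ k, MvPolynomial.aeval v (f α k) = 0) ↔ ∀ g ∈ G, MvPolynomial.aeval v g = 0)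
  independent : ∀ (α : Fin M) (K : Type) [Field K] [CharZero K] (v : Fin (N + 1) → K),
    IsPoint G v → MvPolynomial.aeval v (h α) ≠ 0 →
    LinearIndependent K (fun (k : Fin (N - m)) (j : Fin (N + 1)) =>
      MvPolynomial.aeval v (MvPolynomial.pderiv j (f α k)))
  cover : ∀ (K : Type) [Field K] [CharZero K] (v : Fin (N + 1) → K), IsPoint G v →
    ∃ α, MvPolynomial.aeval v (h α) ≠ 0

/-- `u` is a tangent vector at the point `v` of the cone over `V`, in the chart `α`. -/
def Tangent {N m : ℕ} {G : Set (MvPolynomial (Fin (N + 1)) ℤ)} (C : Charts N m G) {K : Type}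
    [CommRing K] (α : Fin C.M) (v u : Fin (N + 1) → K) : Prop :=
  ∀ k, ∑ j, MvPolynomial.aeval v (MvPolynomial.pderiv j (C.f α k)) * u j = 0

/-- The points with the homogeneous coordinates `y` and `v` are close: some multiple of `y` differs
from `v` by at most `δ |v|`. -/
def Near {N : ℕ} {K : Type} [NontriviallyNormedField K] (δ : ℝ) (y v : Fin (N + 1) → K) : Prop :=
  ∃ t : K, t ≠ 0 ∧ ∀ i, ‖t * y i - v i‖ ≤ δ * ‖v‖

/-- The adelic point `(vr, vp)` of `V` is in the closure of `V(ℚ)`: for all `w` and `δ > 0` there is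
a rational point which is close to it at the real place and at the primes `p ≤ w`. -/
def InClosure {N : ℕ} (G : Set (MvPolynomial (Fin (N + 1)) ℤ)) (vr : Fin (N + 1) → ℝ)
    (vp : ∀ (p : ℕ) [Fact p.Prime], Fin (N + 1) → ℚ_[p]) : Prop :=
  ∀ (w : ℕ) (δ : ℝ), 0 < δ → ∃ y : Fin (N + 1) → ℚ, IsPoint G y ∧
    Near δ (fun i => (y i : ℝ)) vr ∧
    ∀ (p : ℕ) [Fact p.Prime], p ≤ w → Near δ (fun i => (y i : ℚ_[p])) (vp p)

/-- The closure of `V(ℚ)` in the space of the adelic points of `V` is open. -/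
def OpenClosure {N : ℕ} (G : Set (MvPolynomial (Fin (N + 1)) ℤ)) : Prop :=
  ∀ (vr : Fin (N + 1) → ℝ) (vp : ∀ (p : ℕ) [Fact p.Prime], Fin (N + 1) → ℚ_[p]), IsPoint G vr →
    (∀ (p : ℕ) [Fact p.Prime], IsPoint G (vp p)) → InClosure G vr vp →
    ∃ (w : ℕ) (δ : ℝ), 0 < δ ∧ ∀ (ur : Fin (N + 1) → ℝ)
      (up : ∀ (p : ℕ) [Fact p.Prime], Fin (N + 1) → ℚ_[p]), IsPoint G ur →
      (∀ (p : ℕ) [Fact p.Prime], IsPoint G (up p)) → Near δ ur vr →
      (∀ (p : ℕ) [Fact p.Prime], p ≤ w → Near δ (up p) (vp p)) → InClosure G ur up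

/-- The systems of `N + 1` forms of degree `d` in `x_0, …, x_n` with integral coefficients of
absolute value at most `H`. -/
def Systems (N n d H : ℕ) : Set (Fin (N + 1) → MvPolynomial (Fin (n + 1)) ℤ) :=
  {F | ∀ j, (F j).IsHomogeneous d ∧ ∀ m, |(F j).coeff m| ≤ (H : ℤ)}

/-- `(x, v)` is a point over `K` of the divisor `X_F`: `∑ v_j F_j(x) = 0` on `ℙⁿ × V`. -/
def IsPointX {N n : ℕ} (G : Set (MvPolynomial (Fin (N + 1)) ℤ))
    (F : Fin (N + 1) → MvPolynomial (Fin (n + 1)) ℤ) {K : Type} [Field K]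
    (x : Fin (n + 1) → K) (v : Fin (N + 1) → K) : Prop :=
  x ≠ 0 ∧ IsPoint G v ∧ ∑ j, v j * MvPolynomial.aeval x (F j) = 0

/-- `X_F` has a rational point. -/
def RationalPointX {N n : ℕ} (G : Set (MvPolynomial (Fin (N + 1)) ℤ))
    (F : Fin (N + 1) → MvPolynomial (Fin (n + 1)) ℤ) : Prop :=
  ∃ (x : Fin (n + 1) → ℚ) (v : Fin (N + 1) → ℚ), IsPointX G F x v

/-- `X_F` has an adelic point whose image in `V` is in the closure of `V(ℚ)`. -/
def AdelicPointX {N n : ℕ} (G : Set (MvPolynomial (Fin (N + 1)) ℤ))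
    (F : Fin (N + 1) → MvPolynomial (Fin (n + 1)) ℤ) : Prop :=
  ∃ (xr : Fin (n + 1) → ℝ) (xp : ∀ (p : ℕ) [Fact p.Prime], Fin (n + 1) → ℚ_[p])
    (vr : Fin (N + 1) → ℝ) (vp : ∀ (p : ℕ) [Fact p.Prime], Fin (N + 1) → ℚ_[p]),
    IsPointX G F xr vr ∧ (∀ (p : ℕ) [Fact p.Prime], IsPointX G F (xp p) (vp p)) ∧
    InClosure G vr vp

/-- `X_F` is smooth: at every point over a field of characteristic zero some derivative along `ℙⁿ`
or along `V` is not zero. -/
def SmoothX {N n m : ℕ} {G : Set (MvPolynomial (Fin (N + 1)) ℤ)} (C : Charts N m G)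
    (F : Fin (N + 1) → MvPolynomial (Fin (n + 1)) ℤ) : Prop :=
  ∀ (K : Type) [Field K] [CharZero K] (x : Fin (n + 1) → K) (v : Fin (N + 1) → K),
    IsPointX G F x v →
      (∃ a, ∑ j, v j * MvPolynomial.aeval x (MvPolynomial.pderiv a (F j)) ≠ 0) ∨
      ∀ α, MvPolynomial.aeval v (C.h α) ≠ 0 →
        ∃ u, Tangent C α v u ∧ ∑ j, u j * MvPolynomial.aeval x (F j) ≠ 0

/-- Let `V` be a smooth projective variety with `V(ℚ) ≠ ∅` such that the closure of `V(ℚ)` in the
space of the adelic points is open, and let `n ≥ 3`, `2 ≤ d ≤ n`. Then 100% of the `X_F` are smooth,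
and 100% of the smooth `X_F` with an adelic point over the closure of `V(ℚ)` have a rational point;
they are a positive proportion of all. -/
theorem result (N m n d : ℕ) (G : Set (MvPolynomial (Fin (N + 1)) ℤ)) (C : Charts N m G)
    (hn : 3 ≤ n) (hd : 2 ≤ d) (hdn : d ≤ n) (hV : OpenClosure G)
    (hQ : ∃ v : Fin (N + 1) → ℚ, IsPoint G v) :
    (∃ c : ℝ, 0 < c ∧ ∀ᶠ H : ℕ in atTop, c * ((Systems N n d H).ncard : ℝ) ≤
      (({F | F ∈ Systems N n d H ∧ SmoothX C F ∧ AdelicPointX G F} : Set _).ncard : ℝ)) ∧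
    Tendsto (fun H : ℕ =>
      (({F | F ∈ Systems N n d H ∧ SmoothX C F ∧ RationalPointX G F} : Set _).ncard : ℝ) /
      (({F | F ∈ Systems N n d H ∧ SmoothX C F ∧ AdelicPointX G F} : Set _).ncard : ℝ))
      atTop (𝓝 1) ∧
    Tendsto (fun H : ℕ => (({F | F ∈ Systems N n d H ∧ SmoothX C F} : Set _).ncard : ℝ) /
      ((Systems N n d H).ncard : ℝ)) atTop (𝓝 1) :=
  Pool.Agent.T2h19.BV.finT N m n d G
    ⟨C.dim_le, C.homog, C.M, C.f, C.h, C.homog_f, C.homog_h, C.equations, C.independent, C.cover⟩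
    hn hd hdn hV hQ

end Pool.Agent.Results.MP_03ef3d_ag.FibrationsOverAnyBase
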